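import Pool.Agent.H46.RF.Stm

/-!
# Part PRE of crew RF: preimages of conditions
-/

set_option autoImplicit false

open ZFSet (pair)
open Pool.Agent.W868
open MeasureTheory H14.ES H46.RF

namespace H85.RF

theorem pre (hA : S_PRA) (hB : S_PRB) (hS : S_BMS) : S_PRE := by
  intro M hM c u v hc hu hv hmp
  obtain ⟨h, hh1, hh2⟩ := hB M hM c u v hc hu hv
  refine ⟨h, hh1, ?_⟩
  intro T hTM r
  have hhM : h T ∈ M := hh1.1 (fun _ => T) (fun _ => hTM)
  by_cases hT : IsTree T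
  · have h1 := hA c u v T (h T) hT (fun z => by
      rw [hh2 T hTM z]
      exact ⟨fun h => h.2, fun h => ⟨hT, h⟩⟩)
    have h2 : mu ℕ (body (h T)) = mu ℕ (body T) := by
      rw [h1.2]
      exact hmp.measure_preimage (hS.2.1 T).nullMeasurableSet
    constructor
    · rintro ⟨⟨_, _, h3⟩, h4⟩
      refine ⟨⟨hhM, h1.1, by rw [h2]; exact h3⟩, ?_⟩
      rw [h1.2]
      exact h4
    · rintro ⟨⟨_, _, h3⟩, h4⟩
      refine ⟨⟨hTM, hT, by rw [← h2]; exact h3⟩, ?_⟩
      rw [h1.2] at h4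
      exact h4
  · constructor
    · rintro ⟨⟨_, h3, _⟩, _⟩
      exact absurd h3 hT
    · rintro ⟨⟨_, _, _⟩, h4⟩
      have h5 := h4 0
      rw [hh2 T hTM] at h5
      exact absurd h5.1 hT

end H85.RF
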