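import Pool.Agent.H46.RF.Stm

/-!
# Part EQV of crew RF: equivalent reals have the same extension
-/

set_option autoImplicit false

open ZFSet (pair)
open Pool.Agent.W868
open MeasureTheory H14.ES H46.RF

namespace H85.RF

theorem measurable_itm (c u v : ℕ → ℕ) : Measurable (itm c u v) := by
  refine measurable_pi_lambda _ fun j => ?_
  have hc : MeasurableSet {r : ℕ → Bool | r (c j) = true} :=
    measurableSet_eq_fun (measurable_pi_apply (c j)) measurable_const
  exact Measurable.ite hc (measurable_pi_apply _) (measurable_pi_apply _)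

theorem eqv (h3 : S_PR3) (hT : S_TRN) (hP : S_PRE) : S_EQV := by
  intro M hM w hw r
  obtain ⟨hmp, c, u, v, c', u', v', pc, pu, pv, pc', pu', pv', rfl, hl, hr⟩ := hw
  obtain ⟨h, hh1, hh2⟩ := hP M hM c u v (h3 M hM c pc) (h3 M hM u pu) (h3 M hM v pv) hmp
  have hmp' : MeasurePreserving (itm c' u' v') (mu ℕ) (mu ℕ) := by
    refine ⟨measurable_itm _ _ _, ?_⟩
    have h1 : (itm c' u' v') ∘ (itm c u v) = id := by
      funext x
      exact hl x
    conv_lhs => rw [← hmp.map_eq]
    rw [Measure.map_map (measurable_itm _ _ _) (measurable_itm _ _ _), h1, Measure.map_id]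
  obtain ⟨h', hh1', hh2'⟩ := hP M hM c' u' v' (h3 M hM c' pc') (h3 M hM u' pu') (h3 M hM v' pv')
    hmp'
  refine Set.Subset.antisymm ?_ ?_
  · exact hT M hM h hh1 (Th M r) (Th M (itm c u v r)) fun T hTM => hh2 T hTM r
  · refine hT M hM h' hh1' (Th M (itm c u v r)) (Th M r) fun T hTM => ?_
    have h1 := hh2' T hTM (itm c u v r)
    rwa [hl] at h1

end H85.RF
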